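import Pool.Agent.Helper46.NU.Names
import Pool.Agent.Helper46.FL.Lib

/-! Packet IN2 of MP_1fe1ca_lc: a set which injects into an indexed family is covered by an
indexed family. -/

namespace NU.PkIN2

open Pool.Agent.Helper97.Ku Pool.Agent.Helper97.Ku.BSet

theorem iff_ext {L : Type} [CompleteBooleanAlgebra L] {φ ψ : BSet L → L} (h : Ext φ)
    (k : Ext ψ) : Ext (fun x => iffV (φ x) (ψ x)) := by
  unfold iffV
  exact Ext.inf (Ext.himp h k) (Ext.himp k h)

theorem in2 (ex1 : G_EX1) (fam : G_FAM) : G_IN2 := by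
  intro L _ ι x Y b hb
  obtain ⟨-, hap, -⟩ := ex1 L
  obtain ⟨hf1, -, hf3⟩ := fam L ι x
  -- a single name of an injection
  obtain ⟨⟨f, -, hf⟩, -⟩ := Pool.Agent.Helper46.FL.full L
    (fun f : BSet L => ((⨅ a : BSet L, (a.mem Y ⇨ ⨆ b : BSet L, (b.mem (famN x) ⊓
      ⨅ c : BSet L, iffV (apV f a c) (c.eq b)))) ⊓
    ⨅ a : BSet L, ⨅ a' : BSet L, ⨅ b : BSet L,
      ((a.mem Y ⊓ (a'.mem Y ⊓ (apV f a b ⊓ apV f a' b))) ⇨ a.eq a')))
    (fun _ => ⊤)
    (by
      apply Ext.inf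
      · apply Ext.iInf; intro a
        apply Ext.himp (Ext.const _)
        apply Ext.iSup; intro b
        apply Ext.inf (Ext.const _)
        apply Ext.iInf; intro c
        exact iff_ext (hap a c).1 (Ext.const _)
      · apply Ext.iInf; intro a
        apply Ext.iInf; intro a'
        apply Ext.iInf; intro b
        apply Ext.himp _ (Ext.const _)
        apply Ext.inf (Ext.const _)
        apply Ext.inf (Ext.const _)
        exact Ext.inf (hap a b).1 (hap a' b).1)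
    (Ext.const _) ⟨Y, rfl⟩
  simp only [top_inf_eq] at hf
  have hbf : b ≤ (⨅ a : BSet L, (a.mem Y ⇨ ⨆ b : BSet L, (b.mem (famN x) ⊓
      ⨅ c : BSet L, iffV (apV f a c) (c.eq b)))) ⊓
    ⨅ a : BSet L, ⨅ a' : BSet L, ⨅ b : BSet L,
      ((a.mem Y ⊓ (a'.mem Y ⊓ (apV f a b ⊓ apV f a' b))) ⇨ a.eq a') := by
    refine le_trans hb ?_
    rw [hf]
    exact le_rfl
  -- maximal preimages
  have hM : ∀ i, ∃ M : BSet L, M.mem Y ⊓ apV f M (x i) = ⨆ y : BSet L,
      (y.mem Y ⊓ apV f y (x i)) := by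
    intro i
    obtain ⟨⟨M, -, hM⟩, -⟩ := Pool.Agent.Helper46.FL.full L
      (fun y : BSet L => y.mem Y ⊓ apV f y (x i)) (fun _ => ⊤)
      (Ext.inf (Ext.mem_left Y) (hap f (x i)).2.1) (Ext.const _) ⟨Y, rfl⟩
    simp only [top_inf_eq] at hM
    exact ⟨M, hM⟩
  choose M hM using hM
  refine ⟨M, fun i => b ⊓ ((M i).mem Y ⊓ apV f (M i) (x i)), fun i =>
    inf_le_inf_left _ inf_le_left, fun y => ?_⟩
  have h1 : b ⊓ y.mem Y ≤ ⨆ i, apV f y (x i) := by
    rw [← hf3 (fun z => apV f y z) (hap f y).2.2]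
    refine le_trans (inf_le_inf_right _ (le_trans hbf (le_trans inf_le_left (iInf_le _ y)))) ?_
    refine le_trans himp_inf_le ?_
    refine iSup_mono fun z => inf_le_inf_left _ ?_
    refine le_trans (iInf_le _ z) ?_
    rw [eq_refl]
    refine le_trans inf_le_right ?_
    rw [top_himp]
  have h2 : b ⊓ y.mem Y ≤ ⨆ i, (b ⊓ y.mem Y ⊓ apV f y (x i)) := by
    rw [← inf_iSup_eq]
    exact le_inf le_rfl h1
  refine le_trans h2 (iSup_mono fun i => ?_)
  have h3 : b ⊓ y.mem Y ⊓ apV f y (x i) ≤ b ⊓ ((M i).mem Y ⊓ apV f (M i) (x i)) := by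
    rw [hM i, inf_assoc]
    exact inf_le_inf_left _ (le_iSup (fun y : BSet L => y.mem Y ⊓ apV f y (x i)) y)
  refine le_inf h3 ?_
  have h4 : b ≤ ((y.mem Y ⊓ ((M i).mem Y ⊓ (apV f y (x i) ⊓ apV f (M i) (x i)))) ⇨
      y.eq (M i)) :=
    le_trans hbf (le_trans inf_le_right (le_trans (iInf_le _ y) (le_trans (iInf_le _ (M i))
      (iInf_le _ (x i)))))
  refine le_trans ?_ (himp_inf_le (a := y.mem Y ⊓ ((M i).mem Y ⊓ (apV f y (x i) ⊓
    apV f (M i) (x i)))) (b := y.eq (M i)))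
  refine le_inf (le_trans (le_trans inf_le_left inf_le_left) h4) ?_
  refine le_inf (le_trans inf_le_left inf_le_right) ?_
  refine le_inf (le_trans h3 (le_trans inf_le_right inf_le_left)) ?_
  exact le_inf inf_le_right (le_trans h3 (le_trans inf_le_right inf_le_right))

end NU.PkIN2
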